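import Pool.Agent.Helper39.Uct.Goals3

/-!
# Packets IDL, TQ2, CI, TC
-/

open scoped ComplexOrder

namespace Pool.Agent.Helper27.Uct2

open Pool.Agent.Helper39.Uct Fib
open Pool.Agent.Helper43.Uct

/-- Packet IDL. -/
theorem idl : S_IDL := by
  intro 𝒞 h𝒞 H B _ _ _ ι hι hn hH
  have : IsClosed (idealAlg ι : Set B) := isClosed_idealAlg ι
  let j : idealAlg ι →⋆ₙₐ[ℂ] B := NonUnitalStarSubalgebraClass.subtype (idealAlg ι)
  have hj : Function.Injective j := Subtype.val_injective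
  have hsep : TopologicalSpace.SeparableSpace (idealAlg ι) := sep_of_inj j hj
  let κ : H →⋆ₙₐ[ℂ] idealAlg ι :=
    NonUnitalStarAlgHom.codRestrict ι (idealAlg ι) (range_mem_idealAlg ι)
  have hκ : ∀ x, ((κ x : idealAlg ι) : B) = ι x := fun x => rfl
  have hκinj : Function.Injective κ := by
    intro x y hxy
    exact hι.1 (by rw [← hκ x, ← hκ y, hxy])
  have hκH : Hered κ := by
    refine ⟨hκinj, fun x y a => ?_⟩
    obtain ⟨z, hz⟩ := hι.2 x y (a : B)
    refine ⟨z, Subtype.ext ?_⟩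
    rw [hκ z, hz]
    rfl
  have hκF : Full κ := by
    rw [Full, eq_top_iff]
    intro z _
    set T : Submodule ℂ (idealAlg ι) := Submodule.span ℂ
      {z : idealAlg ι | ∃ (a : idealAlg ι) (x : H) (b : idealAlg ι), z = a * κ x * b} with hT
    show z ∈ closure (T : Set (idealAlg ι))
    rw [closure_subtype]
    have h1 : genSpan ι ≤ (T.map (lin j)).topologicalClosure := by
      refine Submodule.span_le.2 ?_
      rintro w ⟨a, x, b, rfl⟩
      have hc : Continuous (fun w : H => a * ι w * b) :=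
        (continuous_const.mul (cont_hom ι)).mul continuous_const
      refine map_mem_closure (f := fun w : H => a * ι w * b) hc (mem_closure_uxu x) ?_
      rintro w ⟨u, rfl⟩
      have ha : a * ι u ∈ idealAlg ι := gen_left ι a _ (range_mem_idealAlg ι u)
      have hb : ι u * b ∈ idealAlg ι := gen_right ι b _ (range_mem_idealAlg ι u)
      refine ⟨⟨a * ι u, ha⟩ * κ x * ⟨ι u * b, hb⟩, ?_, ?_⟩
      · exact Submodule.subset_span ⟨_, x, _, rfl⟩
      · show (a * ι u) * ι x * (ι u * b) = a * ι (u * x * u) * b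
        rw [map_mul, map_mul]
        simp only [mul_assoc]
    have h2 : (genSpan ι).topologicalClosure ≤ (T.map (lin j)).topologicalClosure :=
      Submodule.topologicalClosure_minimal _ h1 (Submodule.isClosed_topologicalClosure _)
    exact h2 z.2
  refine ⟨idealAlg ι, inferInstance, j, ⟨hj, ?_⟩, ?_, ?_⟩
  · intro x a
    exact ⟨⟨⟨a * (x : B), gen_left ι a _ x.2⟩, rfl⟩, ⟨⟨(x : B) * a, gen_right ι a _ x.2⟩, rfl⟩⟩
  · exact hκinj.nontrivial
  · exact h𝒞 H (idealAlg ι) κ hκH hκF hH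

/-- Packet TQ2. -/
theorem tq2 : S_TQ2 := by
  intro Q _ A A' _ _ π hπ hA
  obtain ⟨G, A₀, _, hI, ι, hι⟩ := hA
  refine ⟨mapFib π hπ G, A₀, inferInstance, hI, π.comp ι, ?_⟩
  have hcl := t_RC A₀ A' (π.comp ι)
  have h1 : Set.range (π.comp ι) = ((G.fib 1).map (lin π) : Set A') := by
    ext x
    constructor
    · rintro ⟨a, rfl⟩
      have h2 : ι a ∈ (G.fib 1 : Set A) := by
        rw [← hι]
        exact ⟨a, rfl⟩
      exact ⟨ι a, h2, rfl⟩
    · rintro ⟨b, hb, rfl⟩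
      rw [← hι] at hb
      obtain ⟨a, rfl⟩ := hb
      exact ⟨a, rfl⟩
  show Set.range (π.comp ι) = closure ((G.fib 1).map (lin π) : Set A')
  rw [← h1, hcl.closure_eq]

/-- Commutative algebras are of type I. -/
theorem isTypeI_of_comm {A : Type} [NonUnitalCStarAlgebra A] (h : ∀ x y : A, x * y = y * x) :
    IsTypeI A := by
  intro A' _ π hπ hn
  obtain ⟨x, hx⟩ := exists_ne (0 : A')
  have hc : ∀ x y : A', x * y = y * x := by
    intro x y
    obtain ⟨a, rfl⟩ := hπ x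
    obtain ⟨b, rfl⟩ := hπ y
    rw [← map_mul, ← map_mul, h]
  refine ⟨star x * x, IsSelfAdjoint.star_mul_self x, ?_, fun a b => hc _ _⟩
  rwa [Ne, CStarRing.star_mul_self_eq_zero_iff]

/-- Packet CI. -/
theorem ci : S_CI := by
  intro Q _ B _ G hG
  obtain ⟨D, _, ι, hinj, hr⟩ := Pool.Agent.Helper10.Uct.exists_alg (G.fib 1) (G.closed 1)
    (fun x hx y hy => by simpa using G.mul_mem 1 1 x y hx hy)
    (fun x hx => by simpa using G.star_mem 1 x hx)
  refine ⟨G, D, inferInstance, isTypeI_of_comm ?_, ι, hr⟩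
  intro x y
  have hx : ι x ∈ (G.fib 1 : Set B) := by rw [← hr]; exact ⟨x, rfl⟩
  have hy : ι y ∈ (G.fib 1 : Set B) := by rw [← hr]; exact ⟨y, rfl⟩
  apply hinj
  rw [map_mul, map_mul]
  exact hG _ hx _ hy

/-- Packet TC. -/
theorem tc : S_TC := by
  intro Q _ A _ hA hn
  obtain ⟨G, A₀, _, hI, ι₀, hι₀⟩ := hA
  have hcl : IsClosed (unitAlg G : Set A) := G.closed 1
  obtain ⟨c, hc, hc0⟩ := exists_unit_ne_zero G hn
  have hmem : ∀ x, ι₀ x ∈ unitAlg G := by
    intro x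
    show ι₀ x ∈ (G.fib 1 : Set A)
    rw [← hι₀]
    exact ⟨x, rfl⟩
  let π₀ : A₀ →⋆ₙₐ[ℂ] unitAlg G := NonUnitalStarAlgHom.codRestrict ι₀ (unitAlg G) hmem
  have hπ₀ : Function.Surjective π₀ := by
    intro z
    have hz : (z : A) ∈ (G.fib 1 : Set A) := z.2
    rw [← hι₀] at hz
    obtain ⟨x, hx⟩ := hz
    exact ⟨x, Subtype.ext hx⟩
  have hnt : Nontrivial (unitAlg G) := by
    refine ⟨⟨⟨c, hc⟩, 0, ?_⟩⟩
    intro h
    exact hc0 (congrArg Subtype.val h)
  obtain ⟨a, hasa, ha0, hacomm⟩ := hI (unitAlg G) π₀ hπ₀ hnt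
  have hesa : IsSelfAdjoint (a : A) := congrArg Subtype.val hasa.star_eq
  have he0 : (a : A) ≠ 0 := fun h => ha0 (Subtype.ext h)
  have hea : (a : A) ∈ G.fib 1 := a.2
  obtain ⟨H, _, ι, hι, hHn, -, G', hG'⟩ := rg Q A G ⊤ Q (⊤ : Subgroup Q).subtype (a : A) hesa he0
    (fun q hq => absurd (Subgroup.mem_top q) hq) (by
      have h1 : G.fib 1 ≤ ⨆ k : ((⊤ : Subgroup Q).subtype).ker,
          G.fib ((k : (⊤ : Subgroup Q)) : Q) :=
        le_iSup (fun k : ((⊤ : Subgroup Q).subtype).ker =>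
          G.fib ((k : (⊤ : Subgroup Q)) : Q)) 1
      exact Submodule.le_topologicalClosure _ (h1 hea))
  refine ⟨H, inferInstance, ι, hι, hHn, G', ?_⟩
  intro x hx y hy
  rw [hG'] at hx hy
  apply hι.1
  rw [map_mul, map_mul]
  refine comm_closure_span _ ?_ _ _ hx hy
  rintro u ⟨q, hq, b, hb, rfl⟩ v ⟨q', hq', b', hb', rfl⟩
  have hq1 : (q : Q) = 1 := hq
  have hq1' : (q' : Q) = 1 := hq'
  rw [hq1] at hb
  rw [hq1'] at hb'
  exact congrArg Subtype.val (hacomm ⟨b, hb⟩ ⟨b', hb'⟩)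

end Pool.Agent.Helper27.Uct2
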